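import Pool.Agent.Lib.MP_ff61db_al.PField

namespace Pool.Agent.Results.MP_ff61db_al.AffinePI

/-- A finitely generated Hopf algebra over a field which satisfies a polynomial identity is left
and right noetherian. -/
theorem result (k : Type) [Field k] (H : Type) [Ring H] [HopfAlgebra k H]
    (hft : Algebra.FiniteType k H)
    (hPI : ∃ (m : ℕ) (f : FreeAlgebra k (Fin m)), f ≠ 0 ∧
      ∀ a : Fin m → H, FreeAlgebra.lift k a f = 0) :
    IsNoetherianRing H ∧ IsNoetherianRing Hᵐᵒᵖ :=
  Pool.Agent.Lib.MP_ff61db_al.noeth_of_pi' k H hft hPI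

end Pool.Agent.Results.MP_ff61db_al.AffinePI
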