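import Pool.Agent.Lib.MP_ff61db_al.Stage1

namespace Pool.Agent.Results.MP_ff61db_al.NilpotentCoradical

open Pool.Agent.Lib.MP_ff61db_al

/-- An affine bialgebra of finite Gelfand-Kirillov dimension over any field is left and right
noetherian if the augmentation part `H₀ ∩ ker ε` of its coradical `H₀` is nilpotent. -/
theorem result (k : Type) [Field k] (H : Type) [Ring H] [Bialgebra k H]
    (hgk : ∃ V : Submodule k H, FiniteDimensional k V ∧ (1 : H) ∈ V ∧
      Algebra.adjoin k (V : Set H) = ⊤ ∧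
      ∃ C d : ℕ, ∀ n : ℕ, Module.finrank k (V ^ n : Submodule k H) ≤ C * (n + 1) ^ d)
    (hnil : ∃ N : ℕ,
      (coradical k H ⊓ LinearMap.ker (Coalgebra.counit : H →ₗ[k] k)) ^ N = ⊥) :
    IsNoetherianRing H ∧ IsNoetherianRing Hᵐᵒᵖ := by
  obtain ⟨V, h1, h2, h3, h4⟩ := hgk
  obtain ⟨N, hN⟩ := hnil
  exact stage1 ⟨Module.Finite.iff_fg.1 h1, h2, h4⟩ h3 hN

end Pool.Agent.Results.MP_ff61db_al.NilpotentCoradical
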