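import Pool.Agent.Lib.MP_ff61db_al.Cg.Main3

namespace Pool.Agent.Results.MP_ff61db_al.PIByGroup

open TensorProduct Pool.Agent.Lib.MP_ff61db_al

/-- Let `H` be an affine Hopf algebra of finite Gelfand-Kirillov dimension over a field and `π` a
bialgebra map from `H` to a Hopf algebra `U` whose right and left coinvariants agree. Let `p` be a
bialgebra map from `U` to a group algebra whose right and left coinvariants agree and meet the
coradical of `U` in scalars only. If the coinvariants of `π` satisfy a polynomial identity, then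
`H` is left and right noetherian. -/
theorem result (k : Type) [Field k] (H : Type) [Ring H] [HopfAlgebra k H]
    (hgk : ∃ V : Submodule k H, FiniteDimensional k V ∧ (1 : H) ∈ V ∧
      Algebra.adjoin k (V : Set H) = ⊤ ∧
      ∃ C d : ℕ, ∀ n : ℕ, Module.finrank k (V ^ n : Submodule k H) ≤ C * (n + 1) ^ d)
    (U : Type) [Ring U] [HopfAlgebra k U] (π : H →ₐc[k] U)
    (hn : ∀ x : H, LinearMap.lTensor H π.toLinearMap (Coalgebra.comul x) = x ⊗ₜ[k] 1 ↔
      LinearMap.rTensor H π.toLinearMap (Coalgebra.comul x) = 1 ⊗ₜ[k] x)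
    (G : Type) [Group G] (p : U →ₐc[k] MonoidAlgebra k G)
    (hp : ∀ u : U, LinearMap.lTensor U p.toLinearMap (Coalgebra.comul u) = u ⊗ₜ[k] 1 ↔
      LinearMap.rTensor U p.toLinearMap (Coalgebra.comul u) = 1 ⊗ₜ[k] u)
    (hc : ∀ u ∈ coradical k U, LinearMap.lTensor U p.toLinearMap (Coalgebra.comul u) = u ⊗ₜ[k] 1 →
      ∃ c : k, u = algebraMap k U c)
    (hPI : ∃ (m : ℕ) (f : FreeAlgebra k (Fin m)), f ≠ 0 ∧ ∀ a : Fin m → H,
      (∀ i, LinearMap.lTensor H π.toLinearMap (Coalgebra.comul (a i)) = a i ⊗ₜ[k] 1) →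
        FreeAlgebra.lift k a f = 0) :
    IsNoetherianRing H ∧ IsNoetherianRing Hᵐᵒᵖ := by
  obtain ⟨V, h1, h2, h3, h4⟩ := hgk
  exact Cg.main3 ⟨Module.Finite.iff_fg.1 h1, h2, h4⟩ h3 π hn p hp hc hPI

/-- The case where `U` is a group algebra. -/
theorem group_case (k : Type) [Field k] (H : Type) [Ring H] [HopfAlgebra k H]
    (hgk : ∃ V : Submodule k H, FiniteDimensional k V ∧ (1 : H) ∈ V ∧
      Algebra.adjoin k (V : Set H) = ⊤ ∧
      ∃ C d : ℕ, ∀ n : ℕ, Module.finrank k (V ^ n : Submodule k H) ≤ C * (n + 1) ^ d)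
    (G : Type) [Group G] (π : H →ₐc[k] MonoidAlgebra k G)
    (hn : ∀ x : H, LinearMap.lTensor H π.toLinearMap (Coalgebra.comul x) = x ⊗ₜ[k] 1 ↔
      LinearMap.rTensor H π.toLinearMap (Coalgebra.comul x) = 1 ⊗ₜ[k] x)
    (hPI : ∃ (m : ℕ) (f : FreeAlgebra k (Fin m)), f ≠ 0 ∧ ∀ a : Fin m → H,
      (∀ i, LinearMap.lTensor H π.toLinearMap (Coalgebra.comul (a i)) = a i ⊗ₜ[k] 1) →
        FreeAlgebra.lift k a f = 0) :
    IsNoetherianRing H ∧ IsNoetherianRing Hᵐᵒᵖ := by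
  obtain ⟨V, h1, h2, h3, h4⟩ := hgk
  exact Cg.main2 ⟨Module.Finite.iff_fg.1 h1, h2, h4⟩ h3 π hn hPI

end Pool.Agent.Results.MP_ff61db_al.PIByGroup
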