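import Pool.Agent.Lib.MP_ff61db_al.Pt.YFin
import Pool.Agent.Lib.MP_ff61db_al.Pg.Anti
import Pool.Agent.Lib.MP_ff61db_al.Pg.Ext

namespace Pool.Agent.Results.MP_ff61db_al.PointedPCommutator

open Pool.Agent.Lib.MP_ff61db_al Pool.Agent.Lib.MP_ff61db_al.Pt TensorProduct

/-- Let `H` be an affine Hopf algebra of finite Gelfand-Kirillov dimension over a field that is an
extension `K → H → kG` of a group algebra by a pointed Hopf algebra `K`, which is not assumed
affine. Then `H` is left and right noetherian if every torsion element `u` of the commutator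
subgroup of the group `Γ` generated by the degrees of the nontrivial skew primitive elements of `K`
has a power `u ^ p ^ n` that commutes with all nontrivial skew primitive elements of `K`; here `p`
is the characteristic exponent, or any prime if the characteristic is zero and every element of
`Γ` has a positive power that is central in `K`. -/
theorem result (k : Type) [Field k] (H : Type) [Ring H] [HopfAlgebra k H]
    (hgk : ∃ V : Submodule k H, FiniteDimensional k V ∧ (1 : H) ∈ V ∧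
      Algebra.adjoin k (V : Set H) = ⊤ ∧
      ∃ C d : ℕ, ∀ n : ℕ, Module.finrank k (V ^ n : Submodule k H) ≤ C * (n + 1) ^ d)
    (G : Type) [Group G] (π : H →ₐc[k] MonoidAlgebra k G)
    (K : Type) [Ring K] [HopfAlgebra k K] (ι : K →ₐc[k] H) (hι : Function.Injective ι)
    (hr : ∀ x : H, LinearMap.lTensor H π.toLinearMap (Coalgebra.comul x) = x ⊗ₜ[k] 1 ↔
      x ∈ Set.range ι)
    (hl : ∀ x : H, LinearMap.rTensor H π.toLinearMap (Coalgebra.comul x) = 1 ⊗ₜ[k] x ↔
      x ∈ Set.range ι)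
    (hpt : coradical k K = Submodule.span k {g : K | IsGroupLikeElem k g}) (p : ℕ)
    (hp : p = ringExpChar k ∨
      (p.Prime ∧ ringChar k = 0 ∧ ∀ g ∈ Subgroup.closure (skewSupp k K), ∃ m : ℕ, 0 < m ∧
        ∀ x : K, (g : K) ^ m * x = x * (g : K) ^ m))
    (hyp : ∀ u ∈ ⁅Subgroup.closure (skewSupp k K), Subgroup.closure (skewSupp k K)⁆,
      IsOfFinOrder u → ∃ n : ℕ, ∀ (g : GroupLike k K) (v : K),
        Coalgebra.comul (R := k) v = v ⊗ₜ 1 + (g : K) ⊗ₜ v →
        v ∉ Submodule.span k {(1 : K), (g : K)} → (u : K) ^ p ^ n * v = v * (u : K) ^ p ^ n) :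
    IsNoetherianRing H ∧ IsNoetherianRing Hᵐᵒᵖ := by
  obtain ⟨V, h1, h2⟩ := fgk_of hgk
  have hyp' : ∀ u ∈ ⁅Subgroup.closure (skewSupp k K), Subgroup.closure (skewSupp k K)⁆,
      IsOfFinOrder u → ∃ n : ℕ, Cen k K (u ^ p ^ n) := fun u hu ho =>
    (hyp u hu ho).imp fun n hn g v h1 h2 => by
      rw [GroupLike.val_pow]
      exact hn g v h1 h2
  refine Pg.ext_main h1 h2 π ι hι hr hl (Pg.antipode_surj hpt) fun h => ?_
  rcases hp with hp | ⟨p1, p2, p3⟩
  · exact main3 k K h hpt p (Or.inl hp) hyp'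
  · refine main3c k K h hpt p p1 p2 (fun g hg => (p3 g hg).imp fun m hm => ⟨hm.1, fun x => ?_⟩) hyp'
    rw [GroupLike.val_pow]
    exact hm.2 x

/-- The earlier form: in characteristic zero, `Γ` is finite. -/
theorem finiteGroup (k : Type) [Field k] (H : Type) [Ring H] [HopfAlgebra k H]
    (hgk : ∃ V : Submodule k H, FiniteDimensional k V ∧ (1 : H) ∈ V ∧
      Algebra.adjoin k (V : Set H) = ⊤ ∧
      ∃ C d : ℕ, ∀ n : ℕ, Module.finrank k (V ^ n : Submodule k H) ≤ C * (n + 1) ^ d)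
    (G : Type) [Group G] (π : H →ₐc[k] MonoidAlgebra k G)
    (K : Type) [Ring K] [HopfAlgebra k K] (ι : K →ₐc[k] H) (hι : Function.Injective ι)
    (hr : ∀ x : H, LinearMap.lTensor H π.toLinearMap (Coalgebra.comul x) = x ⊗ₜ[k] 1 ↔
      x ∈ Set.range ι)
    (hl : ∀ x : H, LinearMap.rTensor H π.toLinearMap (Coalgebra.comul x) = 1 ⊗ₜ[k] x ↔
      x ∈ Set.range ι)
    (hpt : coradical k K = Submodule.span k {g : K | IsGroupLikeElem k g}) (p : ℕ)
    (hp : p = ringExpChar k ∨
      (p.Prime ∧ ringChar k = 0 ∧ Finite (Subgroup.closure (skewSupp k K))))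
    (hyp : ∀ u ∈ ⁅Subgroup.closure (skewSupp k K), Subgroup.closure (skewSupp k K)⁆,
      IsOfFinOrder u → ∃ n : ℕ, ∀ (g : GroupLike k K) (v : K),
        Coalgebra.comul (R := k) v = v ⊗ₜ 1 + (g : K) ⊗ₜ v →
        v ∉ Submodule.span k {(1 : K), (g : K)} → (u : K) ^ p ^ n * v = v * (u : K) ^ p ^ n) :
    IsNoetherianRing H ∧ IsNoetherianRing Hᵐᵒᵖ := by
  refine result k H hgk G π K ι hι hr hl hpt p (hp.imp_right fun ⟨p1, p2, p3⟩ =>
    ⟨p1, p2, fun g hg => ?_⟩) hyp
  have ho := (Subgroup.closure (skewSupp k K)).subtype.isOfFinOrder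
    (isOfFinOrder_of_finite ⟨g, hg⟩)
  refine ⟨orderOf g, ho.orderOf_pos, fun x => ?_⟩
  rw [← GroupLike.val_pow, pow_orderOf_eq_one, GroupLike.val_one, one_mul, mul_one]

/-- The case of the trivial group: `H` itself is pointed. -/
theorem pointed (k : Type) [Field k] (H : Type) [Ring H] [HopfAlgebra k H]
    (hgk : ∃ V : Submodule k H, FiniteDimensional k V ∧ (1 : H) ∈ V ∧
      Algebra.adjoin k (V : Set H) = ⊤ ∧
      ∃ C d : ℕ, ∀ n : ℕ, Module.finrank k (V ^ n : Submodule k H) ≤ C * (n + 1) ^ d)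
    (hpt : coradical k H = Submodule.span k {g : H | IsGroupLikeElem k g}) (p : ℕ)
    (hp : p = ringExpChar k ∨
      (p.Prime ∧ ringChar k = 0 ∧ ∀ g ∈ Subgroup.closure (skewSupp k H), ∃ m : ℕ, 0 < m ∧
        ∀ x : H, (g : H) ^ m * x = x * (g : H) ^ m))
    (hyp : ∀ u ∈ ⁅Subgroup.closure (skewSupp k H), Subgroup.closure (skewSupp k H)⁆,
      IsOfFinOrder u → ∃ n : ℕ, ∀ (g : GroupLike k H) (v : H),
        Coalgebra.comul (R := k) v = v ⊗ₜ 1 + (g : H) ⊗ₜ v →
        v ∉ Submodule.span k {(1 : H), (g : H)} → (u : H) ^ p ^ n * v = v * (u : H) ^ p ^ n) :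
    IsNoetherianRing H ∧ IsNoetherianRing Hᵐᵒᵖ := by
  let π := (Bialgebra.unitBialgHom k (MonoidAlgebra k Unit)).comp (Bialgebra.counitBialgHom k H)
  have e : π.toLinearMap = Algebra.linearMap k _ ∘ₗ Coalgebra.counit := rfl
  refine result k H hgk Unit π H (BialgHom.id k H) Function.injective_id
    (fun x => iff_of_true ?_ ⟨x, rfl⟩) (fun x => iff_of_true ?_ ⟨x, rfl⟩) hpt p hp hyp
  · rw [e, LinearMap.lTensor_comp, LinearMap.comp_apply, Coalgebra.lTensor_counit_comul,
      LinearMap.lTensor_tmul, Algebra.linearMap_apply, map_one]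
  · rw [e, LinearMap.rTensor_comp, LinearMap.comp_apply, Coalgebra.rTensor_counit_comul,
      LinearMap.rTensor_tmul, Algebra.linearMap_apply, map_one]

end Pool.Agent.Results.MP_ff61db_al.PointedPCommutator
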